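import Pool.Agent.Helper69.TPF.St1

/-!
# Project TPF, module ADJ
-/

set_option autoImplicit false

open scoped commutatorElement ComplexConjugate

namespace Pool.Agent.Helper32.TPF

open Pool.Agent.Helper69.TPF

variable {E G : Type} [Group E] [Group G]

theorem mul_co [Fintype E] (z w : AA E) (g : E) :
    (z * w).coeff g = ∑ x : E, z.coeff x * w.coeff (x⁻¹ * g) := by
  rw [MonoidAlgebra.coeff_mul_apply_left]
  exact Finsupp.sum_fintype _ _ (fun _ => by simp)

theorem adj_co [Fintype E] (z : AA E) (g : E) : (adj z).coeff g = conj (z.coeff g⁻¹) := by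
  classical
  unfold adj
  rw [MonoidAlgebra.coeff_sum, Finsupp.finsetSum_apply]
  simp only [MonoidAlgebra.coeff_single, Finsupp.single_apply]
  rw [Finset.sum_eq_single g⁻¹]
  · simp
  · intro b _ hb
    rw [if_neg]
    intro h
    exact hb (by rw [← h, inv_inv])
  · intro h
    exact absurd (Finset.mem_univ _) h

omit [Group E] in
theorem ext_co {z w : AA E} (h : ∀ g, z.coeff g = w.coeff g) : z = w := by
  apply MonoidAlgebra.ext
  ext g
  exact h g

private theorem adj_mul [Fintype E] (z w : AA E) : adj (z * w) = adj w * adj z := by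
  apply ext_co
  intro g
  rw [adj_co, mul_co, mul_co, map_sum]
  rw [← Equiv.sum_comp (Equiv.mulLeft (g : E)) (fun x => (adj w).coeff x * (adj z).coeff (x⁻¹ * g))]
  apply Finset.sum_congr rfl
  intro x _
  rw [Equiv.coe_mulLeft, adj_co, adj_co, map_mul, mul_comm]
  congr 3
  · rw [mul_inv_rev]
  · group

private theorem adj_adj [Fintype E] (z : AA E) : adj (adj z) = z := by
  apply ext_co
  intro g
  rw [adj_co, adj_co, inv_inv, Complex.conj_conj]

private theorem adj_add [Fintype E] (z w : AA E) : adj (z + w) = adj z + adj w := by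
  apply ext_co
  intro g
  rw [adj_co, MonoidAlgebra.coeff_add, MonoidAlgebra.coeff_add, Finsupp.add_apply,
    Finsupp.add_apply, adj_co, adj_co, map_add]

private theorem adj_smul [Fintype E] (c : ℂ) (z : AA E) : adj (c • z) = conj c • adj z := by
  apply ext_co
  intro g
  rw [adj_co, MonoidAlgebra.coeff_smul_apply, MonoidAlgebra.coeff_smul_apply, adj_co, smul_eq_mul,
    smul_eq_mul, map_mul]

private theorem adj_single [Fintype E] (v : E) (c : ℂ) :
    adj (MonoidAlgebra.single v c : AA E) = MonoidAlgebra.single v⁻¹ (conj c) := by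
  classical
  apply ext_co
  intro g
  rw [adj_co, MonoidAlgebra.coeff_single, MonoidAlgebra.coeff_single, Finsupp.single_apply,
    Finsupp.single_apply]
  by_cases h : v = g⁻¹
  · rw [if_pos h, if_pos (by rw [h, inv_inv])]
  · rw [if_neg h, if_neg (fun h' => h (by rw [← h', inv_inv])), map_zero]

private theorem adj_one [Fintype E] : adj (1 : AA E) = 1 := by
  rw [MonoidAlgebra.one_def, adj_single, inv_one, map_one]

private theorem tau_adj [Fintype E] (z : AA E) :
    tau (z * adj z) = ((∑ x : E, ‖z.coeff x‖ ^ 2 : ℝ) : ℂ) := by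
  unfold tau
  rw [mul_co, Complex.ofReal_sum]
  apply Finset.sum_congr rfl
  intro x _
  rw [adj_co, mul_one, inv_inv, Complex.mul_conj, Complex.normSq_eq_norm_sq]

private theorem adj_zero_of [Fintype E] (z : AA E) (h : z * adj z = 0) : z = 0 := by
  have h1 := tau_adj z
  rw [h] at h1
  have h2 : (∑ x : E, ‖z.coeff x‖ ^ 2 : ℝ) = 0 := by
    have h3 : tau (0 : AA E) = 0 := by
      unfold tau
      simp
    rw [h3] at h1
    exact_mod_cast h1.symm
  apply ext_co
  intro g
  have h3 := (Finset.sum_eq_zero_iff_of_nonneg (fun x _ => sq_nonneg _)).1 h2 g (Finset.mem_univ _)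
  have h4 : ‖z.coeff g‖ = 0 := by
    exact pow_eq_zero_iff (two_ne_zero) |>.1 h3
  rw [norm_eq_zero] at h4
  rw [h4]
  simp

private theorem tau_comm [Fintype E] (z w : AA E) : tau (z * w) = tau (w * z) := by
  unfold tau
  rw [mul_co, mul_co]
  rw [← Equiv.sum_comp (Equiv.inv E) (fun x => w.coeff x * z.coeff (x⁻¹ * 1))]
  apply Finset.sum_congr rfl
  intro x _
  rw [Equiv.inv_apply, mul_one, mul_one, inv_inv, mul_comm]

private theorem adj_CC [Fintype E] (π : E →* G) (h : G) (z : AA E) (hz : CC π h z) :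
    CC π h⁻¹ (adj z) := by
  refine ⟨?_, ?_⟩
  · intro x hx
    rw [adj_co] at hx
    have h1 : z.coeff x⁻¹ ≠ 0 := by
      intro h2
      rw [h2, map_zero] at hx
      exact hx rfl
    have h2 := hz.1 _ h1
    rw [map_inv] at h2
    rw [← h2, inv_inv]
  · intro v hv
    have h1 := hz.2 v⁻¹ (by rw [map_inv, hv, inv_one])
    have h2 := congrArg adj h1
    rw [adj_mul, adj_mul, adj_single, inv_inv, map_one] at h2
    exact h2.symm

theorem cADJ : St_ADJ := by
  intro E G _ _ _ π
  exact ⟨adj_mul, adj_adj, adj_add, adj_smul, adj_one, tau_adj, adj_zero_of, tau_comm,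
    adj_CC π⟩

end Pool.Agent.Helper32.TPF
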