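import Pool.Agent.Helper69.TPF.St3

/-!
# Project TPF, module VNL
-/

set_option autoImplicit false

open scoped commutatorElement

namespace Pool.Agent.Helper32.TPF

open Pool.Agent.Helper69.TPF

private theorem vnl_list {S J W : Type} [Group W] (p : S → Option J) (F : S → W) (G : J → W)
    (h0 : ∀ s, p s = none → F s = 1) (h1 : ∀ s j, p s = some j → F s = G j) (K : List S) :
    (K.map F).prod = ((K.filterMap p).map G).prod := by
  induction K with
  | nil => rfl
  | cons s K ih =>
    rw [List.map_cons, List.prod_cons, ih]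
    rcases hp : p s with _ | j
    · rw [List.filterMap_cons_none hp, h0 s hp, one_mul]
    · rw [List.filterMap_cons_some hp, List.map_cons, List.prod_cons, h1 s j hp]

private theorem vnl_conj {A : Type} [CommGroup A] (X : A ⋊[MonoidHom.id (MulAut A)] MulAut A) (y : A) :
    X * SemidirectProduct.inl y * X⁻¹ = SemidirectProduct.inl (X.right y) := by
  have h1 : X = SemidirectProduct.inl X.left * SemidirectProduct.inr X.right :=
    (SemidirectProduct.inl_left_mul_inr_right X).symm
  have h2 : (SemidirectProduct.inl (X.right y) : A ⋊[MonoidHom.id (MulAut A)] MulAut A) =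
      SemidirectProduct.inr X.right * SemidirectProduct.inl y * SemidirectProduct.inr X.right⁻¹ :=
    SemidirectProduct.inl_aut (φ := MonoidHom.id (MulAut A)) X.right y
  calc X * SemidirectProduct.inl y * X⁻¹
      = SemidirectProduct.inl X.left * (SemidirectProduct.inr X.right * SemidirectProduct.inl y *
          SemidirectProduct.inr X.right⁻¹) * (SemidirectProduct.inl X.left)⁻¹ := by
        conv_lhs => rw [h1]
        rw [mul_inv_rev, map_inv]
        group
    _ = SemidirectProduct.inl (X.left * X.right y * X.left⁻¹) := by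
        rw [← h2, map_mul, map_mul, map_inv]
    _ = SemidirectProduct.inl (X.right y) := by
        rw [mul_comm X.left, mul_inv_cancel_right]

theorem cVNL (eps : St_EPS) (pre : St_PRE) (ngn : St_NGN) (vna : St_VNA) (wre : St_WRE) : St_VNL := by
  classical
  intro g n t l a ha
  obtain ⟨A, iA, fA, ω, q, hq1, hq2⟩ := vna g n {i // t i = l} a ha
  obtain ⟨W, C, iW, iC, fW, fC, c, π', b, Q, Pi, hcom, hcb, hcQ, hPb, hPQ, hvan⟩ :=
    wre {i // t i = l} A ω
  obtain ⟨m₀, hmn, hmW, hmC, hmA⟩ : ∃ m₀, n ≤ m₀ ∧ Nat.card W ≤ m₀ ∧ Nat.card C ≤ m₀ ∧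
      Nat.card (MulAut A) ≤ m₀ :=
    ⟨n + Nat.card W + Nat.card C + Nat.card (MulAut A), by omega, by omega, by omega, by omega⟩
  refine ⟨m₀, ?_⟩
  intro m hm α x hα hx hrel s hs
  obtain ⟨ε, hε1, hε2⟩ := eps g m₀ t l a ha
  have hker : ∀ s, t s ≠ l → ε s ∈ a.ker := by
    intro s hs
    rw [MonoidHom.mem_ker, hε1 s]
    unfold tgt
    rw [dif_neg hs]
  obtain ⟨H, hH⟩ := pre g m₀ ε hε2 W hmW
    (fun s => if h : t s = l then Q (FreeGroup.of ⟨s, h⟩) else b (q ⟨ε s, hker s h⟩))
  have hH1 : ∀ s, ∀ h : t s = l, H (ε s) = Q (FreeGroup.of ⟨s, h⟩) := by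
    intro s h
    rw [hH s, dif_pos h]
  have hH2 : ∀ s, ∀ h : t s ≠ l, H (ε s) = b (q ⟨ε s, hker s h⟩) := by
    intro s h
    rw [hH s, dif_neg h]
  have hε3 : ∀ s, ∀ h : t s = l, a (ε s) = FreeGroup.of ⟨s, h⟩ := by
    intro s h
    rw [hε1 s]
    unfold tgt
    rw [dif_pos h]
  have hε4 : ∀ s, t s ≠ l → a (ε s) = 1 := fun s h => hker s h
  have e1 : c.comp H = π'.comp a := by
    apply hom_eq_of_genMod hmC hε2
    intro s
    rw [MonoidHom.comp_apply, MonoidHom.comp_apply]
    by_cases h : t s = l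
    · rw [hH1 s h, hcQ, hε3 s h]
    · rw [hH2 s h, hcb, hε4 s h, map_one]
  have e2 : (SemidirectProduct.rightHom.comp Pi).comp H = ω.comp a := by
    apply hom_eq_of_genMod hmA hε2
    intro s
    rw [MonoidHom.comp_apply, MonoidHom.comp_apply, MonoidHom.comp_apply]
    by_cases h : t s = l
    · rw [hH1 s h, hPQ, hε3 s h, SemidirectProduct.rightHom_inr]
    · rw [hH2 s h, hPb, hε4 s h, map_one, SemidirectProduct.rightHom_inl]
  have e2' : ∀ z, (Pi (H z)).right = ω (a z) := fun z => DFunLike.congr_fun e2 z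
  have e1' : ∀ z, c (H z) = π' (a z) := fun z => DFunLike.congr_fun e1 z
  -- the subgroup of the good elements
  let T : Subgroup (FreeGroup (Fin g)) :=
    Subgroup.map a.ker.subtype
      (MonoidHom.eqLocus ((Pi.comp H).comp a.ker.subtype) (SemidirectProduct.inl.comp q))
  have hT : ∀ y : FreeGroup (Fin g), y ∈ T ↔ ∃ ν : a.ker, Pi (H ν) = SemidirectProduct.inl (q ν) ∧
      (ν : FreeGroup (Fin g)) = y := by
    intro y
    constructor
    · rintro ⟨ν, h1, h2⟩
      exact ⟨ν, h1, h2⟩
    · rintro ⟨ν, h1, h2⟩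
      exact ⟨ν, h1, h2⟩
  have hTn : T.Normal := by
    refine ⟨fun y hy z => ?_⟩
    rw [hT] at hy ⊢
    obtain ⟨ν, h1, rfl⟩ := hy
    refine ⟨⟨z * ν * z⁻¹, a.normal_ker.conj_mem _ ν.2 z⟩, ?_, rfl⟩
    rw [hq2 z ν ⟨z * ν * z⁻¹, a.normal_ker.conj_mem _ ν.2 z⟩ rfl]
    show Pi (H (z * ν * z⁻¹)) = _
    rw [map_mul, map_mul, map_mul, map_mul, map_inv, map_inv, h1, vnl_conj, e2']
  have hNC : Subgroup.normalClosure {x | ∃ s, t s ≠ l ∧ x = ε s} ≤ T := by
    apply Subgroup.normalClosure_le_normal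
    rintro y ⟨s, hs, rfl⟩
    show ε s ∈ T
    rw [hT]
    exact ⟨⟨ε s, hker s hs⟩, by rw [hH2 s hs, hPb], rfl⟩
  have key : ∀ ν : a.ker, Pi (H ν) = SemidirectProduct.inl (q ν) := by
    intro ν
    have h1 := ngn g m₀ t l a ε hε1 hε2 ν ν.2
    obtain ⟨y, hy, r, hr, hyr⟩ := Subgroup.mem_sup_of_normal_right.1 h1
    obtain ⟨μ, hμ1, hμ2⟩ := (hT y).1 (hNC hy)
    have hrk : r ∈ a.ker := by
      have h2 : r = y⁻¹ * ν := by rw [← hyr, inv_mul_cancel_left]
      rw [h2, ← hμ2]
      exact a.ker.mul_mem (a.ker.inv_mem μ.2) ν.2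
    have h3 : ν = μ * ⟨r, hrk⟩ := by
      apply Subtype.ext
      rw [Subgroup.coe_mul, hμ2]
      exact hyr.symm
    have h4 : q ⟨r, hrk⟩ = 1 := by
      rw [hq1]
      exact Subgroup.mem_sup_right (lev_anti _ hmn hr)
    have h5 : H r = 1 := lev_kill H hmW hr
    rw [h3, map_mul, h4, mul_one, Subgroup.coe_mul, map_mul, h5, mul_one]
    exact hμ1
  -- the relation in W
  have hW1 : H (Rel2 α x) = 1 := lev_kill H (hmW.trans hm) hrel
  unfold Rel2 at hW1
  rw [map_list_prod, List.map_map] at hW1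
  let p : Fin g → Option {i // t i = l} := fun s => if h : t s = l then some ⟨s, h⟩ else none
  have hp0 : ∀ s, p s = none → t s ≠ l := by
    intro s hps h
    simp only [p] at hps
    rw [dif_pos h] at hps
    exact Option.some_ne_none _ hps
  have hp1 : ∀ s j, p s = some j → j.1 = s := by
    intro s j hps
    simp only [p] at hps
    by_cases h : t s = l
    · rw [dif_pos h] at hps
      rw [← Option.some.inj hps]
    · rw [dif_neg h] at hps
      exact absurd hps.symm (Option.some_ne_none _)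
  have hp2 : ∀ j : {i // t i = l}, p j.1 = some j := by
    intro j
    simp only [p]
    rw [dif_pos j.2]
  have hxl : ∀ j : {i // t i = l}, a (x j.1) = FreeGroup.of j := by
    intro j
    rw [hx]
    unfold tgt
    rw [dif_pos j.2]
  have hxn : ∀ s, t s ≠ l → a (x s) = 1 := by
    intro s h
    rw [hx]
    unfold tgt
    rw [dif_neg h]
  rw [vnl_list p _ (fun j : {i // t i = l} => ⁅H (α j.1), H (x j.1)⁆) ?_ ?_] at hW1
  · have h1 := hvan ((List.finRange g).filterMap p) ?_ ?_ (fun j => H (α j.1)) (fun j => H (x j.1))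
      ?_ ?_ hW1 ⟨s, hs⟩
    · have h2 := key ⟨α s, hα s⟩
      have h3 : (SemidirectProduct.inl (q ⟨α s, hα s⟩) : A ⋊[MonoidHom.id (MulAut A)] MulAut A) =
          SemidirectProduct.inl 1 := by
        rw [← h2, map_one]
        exact h1
      exact (hq1 ⟨α s, hα s⟩).1 (SemidirectProduct.inl_injective h3)
    · apply (List.nodup_finRange g).filterMap
      intro s s' j h1 h2
      rw [← hp1 s j h1, ← hp1 s' j h2]
    · intro j
      rw [List.mem_filterMap]
      exact ⟨j.1, List.mem_finRange _, hp2 j⟩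
    · intro j
      show c (H (α j.1)) = 1
      rw [e1', hα, map_one]
    · intro j
      show c (H (x j.1)) = _
      rw [e1', hxl]
  · intro s hps
    have h := hp0 s hps
    show H ⁅α s, x s⁆ = 1
    rw [map_commutatorElement, commutatorElement_eq_one_iff_mul_comm]
    apply hcom
    · rw [e1', hα, map_one]
    · rw [e1', hxn s h, map_one]
  · intro s j hps
    have h := hp1 s j hps
    show H ⁅α s, x s⁆ = ⁅H (α j.1), H (x j.1)⁆
    rw [map_commutatorElement, h]

end Pool.Agent.Helper32.TPF
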